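import Pool.Agent.U951.TR.Idx
import Pool.Agent.U951.TR.Odd

/-!
# Many primes on both sides of the square of every integer: all integers near a value of `f` at thin sets of arguments

Let `f` be a positive multiplicative function of at most polynomial growth which for each `a ≥ 1` is injective at the
powers `p ^ a` of the large primes and at most `M p ^ a` there; for example Euler's function or the sum of the
divisors. Let `G` have steps bounded below by a positive constant and order of growth at most `d ≥ 1`, and let `κ ≥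
0`, `0.612 d + κ ≤ e`. ALL the integers `k ≥ 1` with `|k - G (f v)| ≤ (f v) ^ κ` have the following property, for
almost all `v` (with a saving of any power of the logarithm) in each of the sets below: each of the intervals `[k ^ 2
- k, k ^ 2]` and `[k ^ 2, k ^ 2 + k]` contains at least `c k / log k` primes, and every interval of length `H ≥ k ^ (1
- δ)` between `k ^ 2 - k` and `k ^ 2 + k` contains at least `c H / log k` primes; in particular each of the two
intervals contains at least `K` primes if `k ≥ N(K)`, for every `K`, where `N(K)` depends only on `K`. The sets are: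

* the values of any integer polynomial without repeated roots, of degree `r` with `r e < 1`;

* the shifted primes `p + a`, `a` any integer, if `e < 1`;

* the intervals `(x, x + y]`, `x^τ ≤ y ≤ x`, for every `τ > e`, `τ ≤ 1`.

Proof. The starting library (`Pool/Agent/Q278/KT`, in the form `Pool/Agent/S821/PowIdx` of helper821) bounds the
number of the exceptional `k ≤ X` by `X ^ (0.612 - δ)`. The tool `Pool.Agent.U405.RS` of helper405 (weighted Rankin
method) shows that the values of `f` at almost all elements of these sets avoid every set with a power saving. The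
numbers `f v` are in a set of density zero and are taken with large multiplicities, so that a bound for the number of
exceptional `k` alone says nothing.
-/

set_option autoImplicit false

open Finset Filter

namespace Pool.Agent.Results.MP_1e9cc8_nt.SparseArguments

open Pool.Agent.S821.PowIdx (RichPow)
open Pool.Agent.U951.TR.Idx (Near)
open Pool.Agent.U405.RS (PM Sparse examples)
open Pool.Agent.N733.TG (Expanding expanding_pow)

/-- Each of the intervals `[k ^ 2 - k, k ^ 2]` and `[k ^ 2, k ^ 2 + k]` contains at least `c k / log k` primes, and every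
interval `(a, a + H]` between `k ^ 2 - k` and `k ^ 2 + k` of length `H ≥ k ^ (1 - δ)` contains at least `c H / log k` primes. -/
def Both (c δ : ℝ) (k : ℕ) : Prop :=
  c * k / Real.log k ≤ (((Finset.Icc (k ^ 2 - k) (k ^ 2)).filter Nat.Prime).card : ℝ) ∧
  c * k / Real.log k ≤ (((Finset.Icc (k ^ 2) (k ^ 2 + k)).filter Nat.Prime).card : ℝ) ∧
  ∀ a H : ℕ, k ^ 2 - k ≤ a → a + H ≤ k ^ 2 + k → (k : ℝ) ^ (1 - δ) ≤ H →
    c * H / Real.log k ≤ (((Finset.Ioc a (a + H)).filter Nat.Prime).card : ℝ)

/-- Each of the intervals `[k ^ 2 - k, k ^ 2]` and `[k ^ 2, k ^ 2 + k]` contains at least `K` primes. -/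
def Many (K k : ℕ) : Prop := K ≤ ((Finset.Icc (k ^ 2 - k) (k ^ 2)).filter Nat.Prime).card ∧
  K ≤ ((Finset.Icc (k ^ 2) (k ^ 2 + k)).filter Nat.Prime).card

lemma of_rich {c δ : ℝ} (hδ : 0 < δ) {k : ℕ} (hk : 2 ≤ k) (h : RichPow c (1 - δ) 2 3 (1 * k)) :
    Both c δ k := by
  rw [one_mul] at h
  have hk2 : (2 : ℝ) ≤ k := by exact_mod_cast hk
  have hk0 : (0 : ℝ) < k := by linarith
  have hsq : k ≤ k ^ 2 := by nlinarith
  have hw : ∀ a H : ℕ, k ^ 2 - k ≤ a → a + H ≤ k ^ 2 + k → (k : ℝ) ^ (1 - δ) ≤ H →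
      c * H / Real.log k ≤ (((Finset.Ioc a (a + H)).filter Nat.Prime).card : ℝ) := by
    intro a H g1 g2 g3
    have g1' : (k : ℝ) ^ 2 - k ≤ a := by
      have : k ^ 2 ≤ a + k := by omega
      have h2 : (k : ℝ) ^ 2 ≤ a + k := by exact_mod_cast this
      linarith
    have g2' : (a : ℝ) + H ≤ (k : ℝ) ^ 2 + k := by exact_mod_cast g2
    have hH : (0 : ℝ) ≤ H := Nat.cast_nonneg _
    exact h a H (by
      rw [Real.rpow_two, show (2 : ℝ) - 1 = 1 by norm_num, Real.rpow_one, abs_le]
      constructor <;> linarith) (by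
      rw [Real.rpow_two, show (2 : ℝ) - 1 = 1 by norm_num, Real.rpow_one, abs_le]
      constructor <;> linarith) g3
  have hkk : (k : ℝ) ^ (1 - δ) ≤ k := by
    calc (k : ℝ) ^ (1 - δ) ≤ (k : ℝ) ^ (1 : ℝ) := Real.rpow_le_rpow_of_exponent_le (by linarith) (by linarith)
      _ = k := Real.rpow_one _
  refine ⟨(hw (k ^ 2 - k) k le_rfl (by omega) hkk).trans (Nat.cast_le.2 (card_le_card fun p hp => ?_)),
    (hw (k ^ 2) k (by omega) le_rfl hkk).trans (Nat.cast_le.2 (card_le_card fun p hp => ?_)), hw⟩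
  · rw [mem_filter, mem_Ioc] at hp
    rw [mem_filter, mem_Icc]
    exact ⟨⟨hp.1.1.le, by omega⟩, hp.2⟩
  · rw [mem_filter, mem_Ioc] at hp
    rw [mem_filter, mem_Icc]
    exact ⟨⟨hp.1.1.le, hp.1.2⟩, hp.2⟩

/-- the constants -/
lemma start (c δ : ℝ) (hc : 0 < c) (hδ : 0 < δ) (_ : δ ≤ 0.0025) : ∃ c' δ' : ℝ, 0 < c' ∧ 0 < δ' ∧
    ∃ k1 : ℕ, ∀ k : ℕ, k1 ≤ k → RichPow c (1 - δ) 2 3 (1 * k) → Both c' δ' k :=
  ⟨c, δ, hc, hδ, 2, fun _ hk h => of_rich hδ hk h⟩

/-- at least `K` primes on both sides -/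
lemma many_of_both (c : ℝ) (hc : 0 < c) (δ : ℝ) (K : ℕ) : ∃ N₀ : ℕ, ∀ k : ℕ, N₀ ≤ k → Both c δ k → Many K k := by
  obtain ⟨N₀, hN₀⟩ := eventually_atTop.1 ((eventually_ge_atTop 2).and (Pool.Agent.U951.TR.Odd.ev_log (K / c)))
  refine ⟨N₀, fun k hk h => ?_⟩
  obtain ⟨h2, h3⟩ := hN₀ k hk
  have hk2 : (2 : ℝ) ≤ k := by exact_mod_cast h2
  have hlog : 0 < Real.log k := Real.log_pos (by linarith)
  have h5 : (K : ℝ) ≤ c * k / Real.log k := by
    rw [le_div_iff₀ hlog]
    rw [div_mul_eq_mul_div, div_le_iff₀ hc] at h3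
    linarith
  exact ⟨by exact_mod_cast h5.trans h.1, by exact_mod_cast h5.trans h.2.1⟩

/-- **Theorem.** There are `c > 0` and `δ > 0` such that for all `f` of the class `PM`, all `G` with steps bounded below
and order at most `d ≥ 1`, all `κ ≥ 0` and `e` with `0.612 d + κ ≤ e` and every `U` the property `Both c δ` of ALL the
integers `k ≥ 1` with `|k - G (f v)| ≤ (f v) ^ κ` holds in the sense `Sparse e f`: with a saving of `(log x)^U` for
almost all `v` among the positive values of every integer polynomial without repeated roots of degree `r`, `r e < 1`;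
among the shifted primes `p + a`, if `e < 1`; and in all intervals `(x, x + y]`, `x^τ ≤ y ≤ x`, `e < τ ≤ 1`. Euler's
function, the sum of the divisors and the identity are in the class, and `α v^d` with `α > 0`, `d ≥ 1` is an example
of `G`. -/
theorem result :
    (∃ c δ : ℝ, 0 < c ∧ 0 < δ ∧ ∀ f : ℕ → ℕ, PM f → ∀ (G : ℕ → ℝ) (d : ℝ), Expanding G d →
        ∀ κ e : ℝ, 0 ≤ κ → 0.612 * d + κ ≤ e → ∀ U : ℕ, Sparse e f (Near (Both c δ) G κ) U) ∧
    (∀ c δ : ℝ, 0 < c → ∀ K : ℕ, ∃ N₀ : ℕ, ∀ k : ℕ, N₀ ≤ k → Both c δ k → Many K k) ∧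
    (PM Nat.totient ∧ PM (fun m => ∑ d ∈ m.divisors, d) ∧ PM (fun m => m)) ∧
    ∀ α d : ℝ, 0 < α → 1 ≤ d → Expanding (fun v => α * (v : ℝ) ^ d) d := by
  refine ⟨?_, fun c δ hc K => many_of_both c hc δ K, examples, fun α d hα hd => expanding_pow hα hd⟩
  obtain ⟨c, δ, hc, hδ, hδ1, H⟩ := Pool.Agent.U951.TR.Idx.tools
  obtain ⟨c', δ', hc', hδ', hk⟩ := start c δ hc hδ hδ1
  refine ⟨c', δ', hc', hδ', fun f hf G d hG κ e hκ he U => ?_⟩
  exact (H 1 (Both c' δ') (by norm_num) hk G d hG κ e hκ he).2.1 f hf U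

end Pool.Agent.Results.MP_1e9cc8_nt.SparseArguments
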