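import Mathlib
import Pool.Agent.U766.OP.Blk
import Pool.Agent.Q278.KT.Fin
import Pool.Agent.Y880.RS.P3i

/-!
# MP_1e9cc8_nt (k-fold Oppermann conjecture): arithmetic progressions of equal blocks of primes in all the windows of the
Oppermann intervals, with few exceptions

The conjecture says that for every `k` and all large `n` both intervals `[n² - n, n²]` and `[n², n² + n]` contain at least
`k` primes. We show that there are `c, δ > 0` such that for all `n ≤ N` with the exception of at most `N ^ 0.612`:

* EVERY interval of length `H ≥ n ^ (1 - δ)` inside `[n² - n, n² + n]` contains at least `c H / log n` primes, and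
* for all `k` and `m` every such interval contains `k` blocks, whose first elements form an arithmetic progression with
  difference at most `(log n) ^ B`, of length at most `B log n`, with at least `m` primes each, such that the positions of
  all the primes in the `k` blocks are the same.

In particular each of the two intervals contains `k` primes in arithmetic progression, and `k` times the same pattern of
`m - 1` consecutive prime gaps.

Method.  The first part is the counting theorem of the starting library for separated intervals of length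
`x ^ (1/2 - η)` with few primes (`Pool.Agent.Q278.KT.mainp_half`: Heath-Brown's identity, large values of Dirichlet
polynomials), in a form for windows of varying length between squares.  For the second part the theorem of the starting
library on the recurrence of the neighbourhoods of primes in short intervals (`Pool.Agent.Y880.RS.P3.windows`) is applied
to the primes of a window that have `m - 1` further primes of the window to their right at a distance `O(log n)`; this is
a positive proportion of the primes of the window by the first part.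
-/

set_option autoImplicit false

namespace Pool.Agent.Results.MP_1e9cc8_nt.TranslatedBlocks

/-- `(a, a + H]` is contained in `[n² - n, n² + n]` and has length `H ≥ n ^ (1 - δ)`. -/
def Window (δ : ℝ) (n a H : ℕ) : Prop := n ^ 2 ≤ a + n ∧ a + H ≤ n ^ 2 + n ∧ (n : ℝ) ^ (1 - δ) ≤ H

/-- Every window contains at least `c H / log n` primes. -/
def Rich (c δ : ℝ) (n : ℕ) : Prop :=
  ∀ a H : ℕ, Window δ n a H → c * H / Real.log n ≤ (((Finset.Ioc a (a + H)).filter Nat.Prime).card : ℝ)

/-- `(a, a + H]` contains the `k` blocks `[q + j d, q + j d + w]`, `j < k`, where `1 ≤ d ≤ D` and `w ≤ W`; `q` is a prime,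
the primes in the `k` blocks are the same up to the translations by `j d`, and there are at least `m` of them in each
block. -/
def Blocks (k m : ℕ) (D W : ℝ) (a H : ℕ) : Prop :=
  ∃ q d w : ℕ, 1 ≤ d ∧ (d : ℝ) ≤ D ∧ (w : ℝ) ≤ W ∧ a < q ∧ q + (k - 1) * d + w ≤ a + H ∧ q.Prime ∧
    (∀ j < k, ∀ u ≤ w, (q + j * d + u).Prime ↔ (q + u).Prime) ∧
    m ≤ ((Finset.range (w + 1)).filter (fun u => (q + u).Prime)).card

/-- **Theorem.** There are `c > 0` and `δ > 0` such that
(1) for all large `N` all `n ≤ N` are rich, with the exception of at most `N ^ 0.612`;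
(2) for all `k ≥ 1` and `m` there are `B` and `n₀` such that for all rich `n ≥ n₀` every window of `n` contains `k` equal
blocks of at least `m` primes, of length at most `B log n`, along a progression with difference at most `(log n) ^ B`.
(The windows include the two intervals `(n² - n, n²]` and `(n², n² + n]`.) -/
theorem result : ∃ c δ : ℝ, 0 < c ∧ 0 < δ ∧
    (∃ N₀ : ℕ, ∀ N : ℕ, N₀ ≤ N →
      (({n : ℕ | 1 ≤ n ∧ n ≤ N ∧ ¬ Rich c δ n}.ncard : ℕ) : ℝ) ≤ (N : ℝ) ^ (0.612 : ℝ)) ∧
    (∀ k m : ℕ, 1 ≤ k → ∃ B n₀ : ℕ, ∀ n : ℕ, n₀ ≤ n → Rich c δ n → ∀ a H : ℕ, Window δ n a H →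
      Blocks k m (Real.log n ^ B) (B * Real.log n) a H) ∧
    ∀ n : ℕ, 1 ≤ n → Window δ n (n ^ 2 - n) n ∧ Window δ n (n ^ 2) n := by
  obtain ⟨c, δ, hc, hδ, hδ1, hfew⟩ := Pool.Agent.U766.OP.few Pool.Agent.Q278.KT.mainp_half
  have hiff : ∀ n : ℕ, Rich c δ n ↔ Pool.Agent.U766.OP.Rich c δ n := fun n =>
    ⟨fun h a H h1 h2 h3 => h a H ⟨h1, h2, h3⟩, fun h a H h1 => h a H h1.1 h1.2.1 h1.2.2⟩
  refine ⟨c, δ, hc, hδ, ?_, ?_, ?_⟩
  · obtain ⟨N0, hN0⟩ := hfew 1 le_rfl
    refine ⟨N0, fun N hN => ?_⟩
    have h1 := hN0 N hN
    rw [one_mul] at h1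
    simpa only [hiff] using h1
  · intro k m hk
    have hWIN : Pool.Agent.U766.OP.WIN := fun k A hk hA ε C hε => Pool.Agent.Y880.RS.P3.windows k A hk hA ε C hε
    obtain ⟨B, n₀, h⟩ := Pool.Agent.U766.OP.blocks_of hWIN hc hδ1 k m hk
    exact ⟨B, n₀, fun n hn hR a H hw => h n hn a H hw.1 hw.2.1 hw.2.2 (hR a H hw)⟩
  · intro n hn
    have h1 : (n : ℝ) ^ (1 - δ) ≤ n := by
      calc (n : ℝ) ^ (1 - δ) ≤ (n : ℝ) ^ (1 : ℝ) :=
            Real.rpow_le_rpow_of_exponent_le (by exact_mod_cast hn) (by linarith)
        _ = n := Real.rpow_one _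
    have h2 : n ≤ n ^ 2 := Nat.le_self_pow (by norm_num) n
    refine ⟨⟨?_, ?_, h1⟩, ⟨by omega, le_rfl, h1⟩⟩
    · omega
    · omega

end Pool.Agent.Results.MP_1e9cc8_nt.TranslatedBlocks
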